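import Mathlib
import Pool.Agent.H451.BB.Def
import Pool.Agent.H451.BB.Def3
import Pool.Agent.H451.BB.Fin4

/-!
# Beilinson's conjecture for a positive proportion of all diagonal cubic threefolds and fivefolds

The definitions are in `Pool.Agent.H451.BB.Def` and `Pool.Agent.H451.BB.Def3`.
-/

set_option autoImplicit false

namespace Pool.Agent.Results.MP_6dc9d1_nt.AllCoefficientsH451

open NumberField Pool.Agent.H451.CubT

/-- **Beilinson's conjecture when all the coefficients vary.** `K = ℚ(√-3)`, `m = 5` or `m = 7`. For a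
random element `D` of the class `Cls` and a random factorisation `D = a_1 ⋯ a_m` the coefficients are
admissible with positive probability, and given this the conjecture holds for
`∑ a_i x_i ^ 3 = 0` with probability at least `0.639 ^ 5` (`m = 5`), `0.639 ^ 21` (`m = 7`). -/
theorem result (K : Type) [Field K] [NumberField K] [IsCyclotomicExtension {3} ℚ K] (m : ℕ)
    (hm : m = 5 ∨ m = 7) :
    (∃ c : ℝ, 0 < c ∧ ∃ X₀ : ℕ, ∀ X : ℕ, X₀ ≤ X →
      c * X ≤ ∑ᶠ D ∈ {D : 𝓞 K | Algebra.norm ℤ D ≤ X ∧ Cls D}, share (m := m) AdmA D) ∧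
    (∃ X₀ : ℕ, ∀ X : ℕ, X₀ ≤ X →
      0.639 ^ m.choose ((m - 3) / 2) *
        ∑ᶠ D ∈ {D : 𝓞 K | Algebra.norm ℤ D ≤ X ∧ Cls D}, share (m := m) AdmA D ≤
      ∑ᶠ D ∈ {D : 𝓞 K | Algebra.norm ℤ D ≤ X ∧ Cls D},
        share (m := m) (fun a => AdmA a ∧ BB a) D) ∧
    ∃ c : ℝ, 0 < c ∧ ∃ X₀ : ℕ, ∀ X : ℕ, X₀ ≤ X →
      c * X ≤ ({D : 𝓞 K | Algebra.norm ℤ D ≤ X ∧ Cls D ∧
        c ≤ share (m := m) (fun a => AdmA a ∧ BB a) D}.ncard : ℝ) :=
  final3 K m hm

end Pool.Agent.Results.MP_6dc9d1_nt.AllCoefficientsH451
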