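import Pool.Agent.H504.BC.Cen

/-!
# Only the central point: ranks of Chow groups, orders of vanishing and smooth cubic hypersurfaces

Question Q1 is about smooth projective varieties `X` of odd dimension `2 i + 1` and the central point of
the `L`-function of the middle cohomology `H^{2i+1}(X)`. The conjecture of Beilinson and Bloch for all
smooth projective varieties `Y` and all codimensions says more: `ord_{s=q+1} L(H^{2q+1}(Y), s)` is the
rank of `CH^{q+1}(Y)_0` for all `q`, whatever the dimension of `Y` is. We show that for affine cubic
hypersurfaces with integral coefficients, which are smooth over the integers, the central formulas (odd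
dimension `2 c + 1`, codimension `c + 1`) imply everything, and that every formula `(q, Y)` is equivalent
to the central formula of one such hypersurface, in all large odd dimensions.

**The hypersurfaces.** A relation `r` between the variables `x_1, …, x_n` is one of the equations
`x_i x_j = x_l`, `x_i + x_j = x_l`, `x_i = 1`; let `ρ_r` be the polynomial `x_i x_j - x_l`,
`x_i + x_j - x_l` or `x_i - 1` (`relPoly`; `Rel (Fin n)` is the type of relations). For a nonempty finite
set `s` of relations there is one more variable `t_r` for every `r ∈ s`; let

  `F_s = ∑_{r ∈ s} t_r ρ_r(x_1, …, x_n)`   (`relCub R s`).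

It has degree at most three and integral coefficients, and the affine hypersurface `F_s = 1`
(`relHyp R s` over the ring `R`) in the affine space of dimension `n + |s|` is smooth over every ring
`R`; its dimension is `n + |s| - 1`. It is called central of index `c` if its dimension is `2 c + 1`, so if
`n + |s| = 2 c + 2`.

**The formula.** For a separated scheme `X` of finite type over `ℚ` and an integer `q` let

* `A^{q,j}(X) = H^j(CH^{q+1}(W(X))_0 ⊗ ℚ)`, where `W(X)` is the weight complex of `X` (Gillet, Soulé;
  a bounded complex of Chow motives) and `CH^{q+1}(N)_0` the group of homologically trivial cycles of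
  codimension `q + 1` of a Chow motive `N`;
* `D.fin q X` the property that all `A^{q,j}(X)` are of finite rank, and
  `D.rk q X = ∑_j (-1)^j rank A^{q,j}(X)`;
* `D.ord q X` the order of vanishing at `s = q + 1` of the alternating product of the `L`-functions of
  `H^{2q+1}` of the terms of the complex `W(X)`; this is the alternating product
  `∏_j L(Gr^W_{2q+1} H^{2q+1+j}_c(X), s)^{(-1)^j}` of the `L`-functions of the parts of weight
  `2q + 1` of the cohomology with compact supports, up to finitely many Euler factors (as in the
  problem, it is presupposed that the `L`-functions of motives continue meromorphically to a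
  neighbourhood of this point).

For a smooth projective variety `Y` over `ℚ` the rank is the rank of `CH^{q+1}(Y)_0` and the order is
`ord_{s=q+1} L(H^{2q+1}(Y), s)`. The formula of index `q` for `X` (`Formula D q X`) says that
`D.fin q X` is true and that the rank is the order; question Q1 is the formula of index `q` for smooth
projective `Y` of dimension `2q + 1`. The varieties over `ℚ` are sufficient for question Q1: a smooth
projective variety over a number field is a smooth projective variety over `ℚ` with the same groups and
`L`-functions. For a central hypersurface `V : F_s = 1` of dimension `2c + 1` the formula of index `c`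
is about the parts of the middle weight `2c + 1 = dim V` of the cohomology with compact supports of `V`.

**Theorem.** (For every integer `δ`; the central case is `δ = 0`.)

(1) The following are equivalent: for infinitely many `c` the formula of index `c` is true for all
hypersurfaces `F_s = 1` of dimension `2c + 1 + δ`; the same for all `c`; the formulas of all indices are
true for all smooth projective varieties over `ℚ`; the formulas of all indices are true for all
separated schemes of finite type over `ℚ`.

(2) For every affine scheme `Spec B` of finite type over `ℚ`, every `q` and all large `c` there is a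
hypersurface `F_s = 1` of dimension `2c + 1 + δ` whose formula of index `c` is **equivalent** to the formula
of index `q` for `Spec B`.

(3) If Jouanolou's trick holds for the data (`Jouanolou D`: for every smooth projective `Y` there are an
affine scheme `Spec B` of finite type and a number `m`, such that the data of `Spec B` with the index
`q + m` are the data of `Y` with the index `q`; in fact there is an affine bundle `Spec B → Y` of rank `m`,
and `W(Spec B) = W(Y) ⊗ L^m` for the Lefschetz motive `L`), then for every smooth projective `Y`, every `q`
and all large `c` there is a hypersurface `F_s = 1` of dimension `2c + 1 + δ` whose formula of index `c` is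
equivalent to the formula of index `q` for `Y`. So every instance of question Q1 is equivalent to the
central formula (`δ = 0`) of one smooth cubic hypersurface over the integers.

(4) `F_s` has degree at most three and integral coefficients, and `F_s = 1` is smooth over all rings.

The hypotheses `IsRankG D` are standard: the weight complex (and the cohomology with compact supports) has
localisation triangles, it is twisted (and the cohomology is shifted) by affine bundles, and for a scheme
of dimension at most `n` it consists of motives of dimension at most `n` (`low`, `high`); `hH` is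
Hironaka's theorem.

Idea of the proof. Every algebra of finite type over a prime field is defined by relations. If `Z` is the
zero set of the relations in `s`, then `F_s = 1` is an affine bundle of rank `|s| - 1` over the complement
of `Z` in the affine space, so the formula of index `q'` for `Z` is the formula of index
`q' + |s| - 1` for the hypersurface. It is the index `c` of a hypersurface of dimension `2c + 1 + δ` iff
the excess `β = 2 q' + |s| - n` is `-δ`. We change the excess. A further variable `o` with the relations
`o o = o` and `o + o = o` does not change `Z`, and `β` grows by one. A further variable with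
the relation `u = 1` changes neither `Z` nor `β`, and `c` grows by one. Finally let `Z'` be the product
of `Z` and the quadric `∑_{l < K} x_l y_l = 1`, described by relations with the further
variables `z_l = x_l y_l` and the partial sums. The product with the quadric is the affine bundle of rank
`K - 1` over `Z × (𝔸^K - 0)`, and for `q' < K` the formula of index `q'` for `Z × 𝔸^K` is trivially true,
hence the formula of index `q'` for `Z` is equivalent to the formula of index `q' + K - 1` for `Z'`. This
step makes `β` smaller by one.
-/

set_option autoImplicit false

open CategoryTheory CategoryTheory.Limits AlgebraicGeometry Pool.Agent.Y116.UV Pool.Agent.Z125.UN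
  Pool.Agent.Q193.LT Pool.Agent.H854.SQ Pool.Agent.H367.OS Pool.Agent.H504.BC

namespace Pool.Agent.Results.MP_6dc9d1_nt.CentralHypersurfaces

/-- The formula of index `q`. -/
def Formula (D : RankData ℚ) (q : ℤ) (X : Sch ℚ) : Prop := D.fin q X ∧ D.ord q X = D.rk q X

/-- The formula of index `c` is true for all hypersurfaces `F_s = 1` of dimension `2 c + 1 + δ`. -/
def Line (D : RankData ℚ) (δ : ℤ) (c : ℕ) : Prop :=
  ∀ (n : ℕ) (s : Finset (Rel (Fin n))), s.Nonempty → (s.card + n : ℤ) = 2 * c + 2 + δ →
    Formula D c (relHyp ℚ s)

/-- The formula of index `q` for `X` is equivalent to the formula of index `c` of a hypersurface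
`F_s = 1` of dimension `2 c + 1 + δ`, for all large `c`. -/
def OneHypersurface (D : RankData ℚ) (δ q : ℤ) (X : Sch ℚ) : Prop :=
  ∃ c₀ : ℕ, ∀ c : ℕ, c₀ ≤ c → ∃ (n : ℕ) (s : Finset (Rel (Fin n))), s.Nonempty ∧
    (s.card + n : ℤ) = 2 * c + 2 + δ ∧ (Formula D c (relHyp ℚ s) ↔ Formula D q X)

/-- Jouanolou's trick for the data: the data of a smooth projective scheme are the shifted data of an
affine scheme. -/
def Jouanolou (D : RankData ℚ) : Prop :=
  ∀ Y : Sch ℚ, SmoothProj Y → ∃ (m : ℕ) (B : Type) (_ : CommRing B) (_ : Algebra ℚ B),
    Algebra.FiniteType ℚ B ∧ ∀ q : ℤ, (D.fin (q + m) (aff ℚ B) ↔ D.fin q Y) ∧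
      D.ord (q + m) (aff ℚ B) = D.ord q Y ∧ D.rk (q + m) (aff ℚ B) = D.rk q Y

/-- **Only the central point.** See the explanations above. `hH` is Hironaka's theorem; `point` is the
trivial case of `Spec ℚ` (no cohomology of odd weight, no homologically trivial cycles). -/
theorem result {D : RankData ℚ} (hD : IsRankG D) (hH : Hironaka ℚ)
    (point : ∀ q, Formula D q (aff ℚ ℚ)) (δ : ℤ) :
    List.TFAE [∃ᶠ c in Filter.atTop, Line D δ c, ∀ c, Line D δ c,
      ∀ Y : Sch ℚ, SmoothProj Y → ∀ q, Formula D q Y,
      ∀ X : Sch ℚ, FT True X → ∀ q, Formula D q X] ∧
    (∀ (B : Type) [CommRing B] [Algebra ℚ B] [Algebra.FiniteType ℚ B] (q : ℤ),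
      OneHypersurface D δ q (aff ℚ B)) ∧
    (Jouanolou D → ∀ Y : Sch ℚ, SmoothProj Y → ∀ q : ℤ, OneHypersurface D δ q Y) ∧
    ∀ (n : ℕ) (s : Finset (Rel (Fin n))), (relCub ℤ s).totalDegree ≤ 3 ∧
      ∀ (R : Type) [CommRing R], MvPolynomial.map (Int.castRingHom R) (relCub ℤ s) = relCub R s ∧
        Smooth (relHyp R s).hom := by
  have hG : Lined (Formula D) := lined_of_graduated (graduated_rank hD point)
  have h2 : ∀ (B : Type) [CommRing B] [Algebra ℚ B] [Algebra.FiniteType ℚ B] (q : ℤ),
      OneHypersurface D δ q (aff ℚ B) := by
    intro B _ _ _ q
    obtain ⟨c₀, h⟩ := central isPrimeField_rat B δ q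
    refine ⟨c₀, fun c hc => ?_⟩
    obtain ⟨n, s, hs, hn, h1⟩ := h c hc
    exact ⟨n, s, hs, hn, h1 _ hG⟩
  refine ⟨central_tfae isPrimeField_rat hH hG δ, fun B _ _ _ q => h2 B q, fun hJ Y hY q => ?_,
    fun n s => ⟨totalDegree_relCub ℤ s, fun R _ => ⟨map_relCub _ s, smooth_relHyp R s⟩⟩⟩
  obtain ⟨m, B, _, _, hB, h⟩ := hJ Y hY
  obtain ⟨c₀, h3⟩ := h2 B (q + m)
  refine ⟨c₀, fun c hc => ?_⟩
  obtain ⟨n, s, hs, hn, h4⟩ := h3 c hc
  refine ⟨n, s, hs, hn, h4.trans ?_⟩
  obtain ⟨h5, h6, h7⟩ := h q
  rw [Formula, Formula, h5, h6, h7]

end Pool.Agent.Results.MP_6dc9d1_nt.CentralHypersurfaces
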