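import Mathlib
import Pool.Agent.H451.OP.Def
import Pool.Agent.H451.OP.P7

/-!
# The cubic twists of every product of diagonal cubics

Let `K = ℚ(√-3)` and `X = V × Y_1 × ⋯ × Y_r` with any `r`, where `V : ∑ a_i x_i ^ 3 = 0` is a diagonal cubic
in `m = 3, 5` or `7` variables (a curve, a threefold or a fivefold) and `Y_t : ∑ b_{t,i} y_i ^ 3 = 0` is a
diagonal cubic in `n_t = 4` or `2` variables (a cubic surface, or the spectrum of
`K[y] / (b_{t,1} y ^ 3 + b_{t,2})`, so that a product with it is the base change to a Kummer extension of `K`).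
The coefficients are ANY elements of `𝓞 K` prime to `3`.  The dimension of `X` is `2 i + 1` with
`i = (m - 3) / 2 + #{t | n_t = 4}`.

The twist `X_D` of `X` by `D` has `D a_(i₀)` in the place of `a_(i₀)` (`twist`): the coordinate `x_(i₀)` makes
`V` a cyclic cover of degree three of the projective space of dimension `m - 2`, and `V_D` is its cubic twist.
The admissible `D` (`All`) are ALL the squarefree elements of `𝓞 K` which are prime to `3` and to the
coefficients, by the norm; no congruence is imposed on them.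

By classical work (Weil, Shioda and Katsura; not in Lean) the part of the Chow motive of `X_D` that is
homologically trivial is the sum of the `h¹(E_{S,τ})(-j)`, `E_{S,τ} : y ^ 2 + B y = x ^ 3`,
`B = DX (twist a i₀ D) b S τ`, so `CH^i(X_D)_0 ⊗ ℚ = ⊕ E_{S,τ}(K) ⊗ ℚ` over the classes of codimension `i`.
The corresponding identity of the numbers of points over all the finite fields is (1).

* (3) `n = cells` is the number of the classes modulo nine of the `par q`, and `N = classes` the number of the
  classes of the `par q` modulo the cubes of `K`.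
* (4) The `D` for which no `E_{S,τ}` is in the excluded class modulo nine (`Cls`) have share `(9 - n) / 9`.
* (5) For these `D` there are numbers `ν D q` which bound the ranks, `rank E_q(K) ≤ 2 ν D q`; they are equal
  for `q`, `q'` of the same class modulo cubes (the curves are isogenous), and asymptotically
  independent, with the law `prob`, for `q` of different classes. If all of them are zero then the conjecture
  holds for `X_D` in all the codimensions, with both sides zero (`AllCodim`): all the `E_q(K)` are finite and for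
  all `i` the `L`-function of `H^(2 i - 1)(X_D)` is entire and does not vanish at `s = i`.  This happens for the
  share `(9 - n) / 9 * prob 0 ^ N` of ALL the twists, `prob 0 = 0.639…`.
* (6) So this share is a lower bound for the share of the `D` with the conjecture in all the codimensions.

For example the parameters `par q` of `x_1 ^ 3 + ⋯ + x_(m-1) ^ 3 + D x_m ^ 3 = 0` are all equal to `1`, so
`n = N = 1` and more than `8 / 9 * 0.639 > 56.8 %` of all these curves, threefolds and fivefolds satisfy the
conjecture with both sides zero.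
-/

set_option autoImplicit false

namespace Pool.Agent.Results.MP_6dc9d1_nt.CubicTwistsOfProductsH451

open NumberField IsDedekindDomain Pool.Agent.H451.XP Pool.Agent.H451.OP.Tw
open Pool.Agent.H451.CubT (E)
open Pool.Agent.H451.TB (prob)
open scoped Classical

/-- **The cubic twists of every product of diagonal cubics, in all the codimensions.** -/
theorem result (K : Type) [Field K] [NumberField K] [IsCyclotomicExtension {3} ℚ K] (m : ℕ)
    (hm : m = 3 ∨ m = 5 ∨ m = 7) (r : ℕ) (n : Fin r → ℕ) (hn : ∀ t, n t = 2 ∨ n t = 4)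
    (a : Fin m → 𝓞 K) (b : ∀ t : Fin r, Fin (n t) → 𝓞 K)
    (ha : ∀ i, ¬ (3 : ℤ) ∣ Algebra.norm ℤ (a i))
    (hb : ∀ t i, ¬ (3 : ℤ) ∣ Algebra.norm ℤ (b t i)) (i₀ : Fin m) :
    -- (1) the motive of the twists
    (∀ D : 𝓞 K, MotX (twist a i₀ D) b) ∧
    -- (2) the admissible `D`
    ((∀ X : ℕ, (All a b X).Finite) ∧ ∃ c : ℝ, 0 < c ∧ ∃ X₀ : ℕ, ∀ X : ℕ, X₀ ≤ X →
      c * X ≤ ((All a b X).ncard : ℝ)) ∧
    -- (3) the numbers of the classes
    (cells a b i₀ ≤ 9 ∧ cells a b i₀ ≤ classes a b i₀ ∧ 1 ≤ classes a b i₀ ∧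
      classes a b i₀ ≤ m.choose ((m - 3) / 2) * ∏ t, (1 + (n t).choose (n t / 2))) ∧
    -- (4) the share of the class
    Filter.Tendsto (fun X : ℕ => ((Cls a b i₀ X).ncard : ℝ) / ((All a b X).ncard : ℝ)) Filter.atTop
      (nhds ((9 - cells a b i₀) / 9)) ∧
    -- (5) the ranks and their joint law
    (∃ ν : 𝓞 K → Ind m n → ℕ,
      (∀ (X : ℕ), ∀ D ∈ Cls a b i₀ X, (∀ q : Ind m n,
          Module.Finite ℤ (E ((DX (twist a i₀ D) b q.1.1 q.2 : 𝓞 K) : K)).toAffine.Point ∧
          Module.finrank ℤ (E ((DX (twist a i₀ D) b q.1.1 q.2 : 𝓞 K) : K)).toAffine.Point ≤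
            2 * ν D q) ∧
        ((∀ q, ν D q = 0) → AllCodim (twist a i₀ D) b)) ∧
      (∀ (X : ℕ), ∀ D ∈ Cls a b i₀ X, ∀ q q' : Ind m n,
        SameClass (par a b i₀ q) (par a b i₀ q') → ν D q = ν D q') ∧
      (∀ T : Finset (Ind m n), (∀ q ∈ T, ∀ q' ∈ T, q ≠ q' →
          ¬ SameClass (par a b i₀ q) (par a b i₀ q')) →
        ∀ ρ : Ind m n → ℕ, cells a b i₀ < 9 → Filter.Tendsto (fun X : ℕ =>
          ({D | D ∈ Cls a b i₀ X ∧ ∀ q ∈ T, ν D q = ρ q}.ncard : ℝ) /
            ((Cls a b i₀ X).ncard : ℝ)) Filter.atTop (nhds (∏ q ∈ T, prob (ρ q)))) ∧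
      Filter.Tendsto (fun X : ℕ => ({D | D ∈ Cls a b i₀ X ∧ ∀ q, ν D q = 0}.ncard : ℝ) /
        ((All a b X).ncard : ℝ)) Filter.atTop
        (nhds ((9 - cells a b i₀) / 9 * prob 0 ^ classes a b i₀))) ∧
    -- (6) the conjecture in all the codimensions
    ∃ X₀ : ℕ, ∀ X : ℕ, X₀ ≤ X →
      (9 - cells a b i₀) / 9 * 0.639 ^ classes a b i₀ * ((All a b X).ncard : ℝ) ≤
        ({D | D ∈ All a b X ∧ AllCodim (twist a i₀ D) b}.ncard : ℝ) :=
  Pool.Agent.H451.OP.final_OP K m hm r n hn a b ha hb i₀

end Pool.Agent.Results.MP_6dc9d1_nt.CubicTwistsOfProductsH451
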